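import Pool.Agent.Lib.MP_63e4a9_ag.Odd

open Pool.Agent.Lib.MP_63e4a9_ag

/-- For every odd `e ≥ 3` there are integral curves in `P^(e+1)` (`n = 1`, codimension `e`) of
arbitrarily large degree that lie on no quadric and fail condition `ND(2)`. -/
theorem Pool.Agent.Results.MP_63e4a9_ag.NoBound.result
    (k : Type*) [Field k] [IsAlgClosed k] [CharZero k] (e : ℕ) (he : 3 ≤ e) (ho : Odd e)
    (D : ℕ) :
    ∃ (I : Ideal (MvPolynomial (Fin (e + 1 + 1)) k)) (d : ℕ),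
      D < d ∧ IsVarietyIdeal I ∧ HasDimDeg I 1 d ∧ NoHypersurface I 2 ∧ ¬ ND I e 2 := by
  obtain ⟨r, hr⟩ := ho
  have h1 : e + 1 = 2 * (r + 1) := by omega
  have h2 : (r + 1) * 2 ≤ D + (r + 1) * 2 := by omega
  exact ⟨oddIdeal k e (r + 1) (D + (r + 1) * 2), (r + 1) * (D + (r + 1) * 2 + 1),
    lt_of_lt_of_le (by omega) (Nat.le_mul_of_pos_left _ (by omega)), odd_variety h1 h2,
    odd_dimDeg h1 _, odd_noQuadric h1 h2, odd_not_ND h1 (by omega) _⟩
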